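import Pool.Agent.W2helper10.MW.Loc2

/-!
# Montgomery's bound for Weyl sums of every degree `k ≥ 3`, for almost all points of every arc
-/

set_option autoImplicit false

open MeasureTheory

namespace Pool.Agent.Results.MP_3b0be2_nt.EveryArcSixth

/-- For every `k ≥ 3` and `δ > 0` there is `C` such that for all `ε ≥ 0`, all `N` and every arc `|t - a/q| ≤ 1/q^2`
(`1 ≤ a < q ≤ N`, `(a, q) = 1`), and every real `α`, the set of `t` in the arc for which the inequality of `H_k(1/k)`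
with constant `1`, for the sums with phases `t n^k + α n^2 + ξ n`, fails for at least one real `ξ` and at least one
incomplete sum over `(u, v]`, `v ≤ N`, has Lebesgue measure at most `C q^(6/k) N^(δ-2-6ε) / q^2`. -/
theorem result : ∀ k : ℕ, 3 ≤ k → ∀ δ : ℝ, 0 < δ → ∃ C : ℝ, 0 < C ∧
    ∀ N a q : ℕ, 1 ≤ a → a < q → q ≤ N → Nat.Coprime a q → ∀ ε : ℝ, 0 ≤ ε → ∀ α : ℝ,
      volume {t : ℝ | |t - (a : ℝ) / (q : ℝ)| ≤ 1 / (q : ℝ) ^ 2 ∧ ∃ (ξ : ℝ) (u v : ℕ), v ≤ N ∧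
        (N : ℝ) ^ (1 + ε) * (1 / (q : ℝ) + 1 / (N : ℝ) + (q : ℝ) / (N : ℝ) ^ k) ^ (1 / (k : ℝ)) <
          ‖∑ n ∈ Finset.Ioc u v, Complex.exp (2 * (Real.pi : ℂ) * Complex.I *
            (((t * (n : ℝ) ^ k + α * (n : ℝ) ^ 2 + ξ * (n : ℝ)) : ℝ) : ℂ))‖} ≤
      ENNReal.ofReal (C * ((q : ℝ) ^ (6 / (k : ℝ)) * (N : ℝ) ^ (δ - 2 - 6 * ε)) * (1 / (q : ℝ) ^ 2)) := by
  intro k hk δ hδ
  rcases Nat.lt_or_ge 3 k with hk4 | hk3
  · obtain ⟨C, hC, h⟩ := Pool.Agent.W2helper10.MW.higher k hk4 δ hδ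
    refine ⟨C, hC, fun N a q ha haq hqN _ ε hε α => ?_⟩
    have h1 := h (fun n => Pool.Agent.W928.MW.e (α * (n : ℝ) ^ 2)) (fun n => by rw [Pool.Agent.W928.MW.e_norm])
      N q ((a : ℝ) / (q : ℝ)) ε hε (by omega) hqN
    refine (measure_mono ?_).trans h1
    rintro t ⟨h2, ξ, u, v, hv, h3⟩
    refine ⟨h2, ξ, u, v, hv, h3.trans_le (le_of_eq ?_)⟩
    congr 1
    refine Finset.sum_congr rfl fun n _ => ?_
    rw [← Pool.Agent.W928.MW.e_add]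
    show Pool.Agent.W928.MW.e (t * (n : ℝ) ^ k + α * (n : ℝ) ^ 2 + ξ * (n : ℝ)) = _
    congr 1
    push_cast
    ring
  · obtain rfl : k = 3 := by omega
    obtain ⟨C, hC, h⟩ := Pool.Agent.W2helper10.MW.cubic δ hδ
    refine ⟨C, hC, fun N a q ha haq hqN hc ε hε α => ?_⟩
    have h1 := h N q a α ε hε (by omega) hqN (Nat.isCoprime_iff_coprime.2 hc)
    have e1 : (q : ℝ) ^ (6 / ((3 : ℕ) : ℝ)) = (q : ℝ) ^ 2 := by
      have : (6 : ℝ) / ((3 : ℕ) : ℝ) = ((2 : ℕ) : ℝ) := by norm_num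
      rw [this, Real.rpow_natCast]
    rw [e1]
    unfold Pool.Agent.W2helper10.MW.lev at h1
    exact h1

end Pool.Agent.Results.MP_3b0be2_nt.EveryArcSixth
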