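import Pool.Agent.W2helper10.MW.Loc2

/-!
# The sixth moment of Weyl sums over every arc
-/

set_option autoImplicit false

open MeasureTheory

namespace Pool.Agent.Results.MP_3b0be2_nt.SixthMomentArcs

/-- For every `k ≥ 3` and `δ > 0` there is `C` such that for all `1 ≤ a < q ≤ N` with `(a, q) = 1`, all real `α` and
all `N ≤ u ≤ v ≤ 2N`, the sixth moment of the sum of `e(t n^k + α n^2 + ξ n)` over `n` in `(u, v]`, over
`|t - a/q| ≤ 1/q^2` and `0 ≤ ξ ≤ 1`, is at most `C N^(3+δ) / q^2`. -/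
theorem result : ∀ k : ℕ, 3 ≤ k → ∀ δ : ℝ, 0 < δ → ∃ C : ℝ, 0 < C ∧
    ∀ N a q : ℕ, 1 ≤ a → a < q → q ≤ N → Nat.Coprime a q → ∀ (α : ℝ) (u v : ℕ), N ≤ u → u ≤ v → v ≤ 2 * N →
      ∫ t in ((a : ℝ) / (q : ℝ) - 1 / (q : ℝ) ^ 2)..((a : ℝ) / (q : ℝ) + 1 / (q : ℝ) ^ 2), ∫ ξ in (0 : ℝ)..1,
        ‖∑ n ∈ Finset.Ioc u v, Complex.exp (2 * (Real.pi : ℂ) * Complex.I *
          (((t * (n : ℝ) ^ k + α * (n : ℝ) ^ 2 + ξ * (n : ℝ)) : ℝ) : ℂ))‖ ^ 6 ≤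
      C * (N : ℝ) ^ (3 + δ) * (1 / (q : ℝ) ^ 2) := by
  intro k hk δ hδ
  rcases Nat.lt_or_ge 3 k with hk4 | hk3
  · obtain ⟨C, hC, h⟩ := Pool.Agent.W2helper10.MW.loc_higher k hk4 δ hδ
    refine ⟨C, hC, fun N a q ha haq hqN _ α u v h1 h2 h3 => ?_⟩
    have h4 := h (fun n => Pool.Agent.W928.MW.e (α * (n : ℝ) ^ 2)) (fun n => by rw [Pool.Agent.W928.MW.e_norm])
      N q ((a : ℝ) / (q : ℝ)) u v (by omega) hqN h1 h2 h3
    refine le_trans (le_of_eq ?_) h4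
    have e1 : ∀ t ξ : ℝ, ∑ n ∈ Finset.Ioc u v, Pool.Agent.W928.MW.e (α * (((n : ℕ) : ℤ) : ℝ) ^ 2) *
        Pool.Agent.W928.MW.e (t * (n : ℝ) ^ k + ξ * n) =
        ∑ n ∈ Finset.Ioc u v, Complex.exp (2 * (Real.pi : ℂ) * Complex.I *
          (((t * (n : ℝ) ^ k + α * (n : ℝ) ^ 2 + ξ * (n : ℝ)) : ℝ) : ℂ)) := by
      intro t ξ
      refine Finset.sum_congr rfl fun n _ => ?_
      rw [← Pool.Agent.W928.MW.e_add]
      show _ = Pool.Agent.W928.MW.e (t * (n : ℝ) ^ k + α * (n : ℝ) ^ 2 + ξ * (n : ℝ))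
      congr 1
      push_cast
      ring
    simp only [e1]
  · obtain rfl : k = 3 := by omega
    obtain ⟨C, hC, h⟩ := Pool.Agent.W2helper10.MW.loc_cubic δ hδ
    refine ⟨C, hC, fun N a q ha haq hqN hc α u v h1 h2 h3 => ?_⟩
    exact h N q a α u v (by omega) hqN (Nat.isCoprime_iff_coprime.2 hc) h1 h2 h3

end Pool.Agent.Results.MP_3b0be2_nt.SixthMomentArcs
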